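import Pool.Agent.W500.CS.Stm

/-!
# The zero set of the real part of a holomorphic function in a thin twisted strip (helper377)
-/

set_option autoImplicit false

open Metric Set Filter Topology
open scoped ContDiff

namespace Pool.Agent.W377.CQ

open Pool.Agent.W500.CS

/-- the exponent -/
noncomputable def ww (κ φ₀ φ : ℝ) : ℂ := (κ : ℂ) * ((φ : ℂ) - φ₀) + Complex.I * φ

theorem Gm_eq (κ φ₀ q φ : ℝ) : Gm κ φ₀ q φ = q * Complex.exp (ww κ φ₀ φ) := rfl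

theorem hasDerivAt_ww (κ φ₀ φ : ℝ) : HasDerivAt (ww κ φ₀) ((κ : ℂ) + Complex.I) φ := by
  have h1 : HasDerivAt (fun φ : ℝ => (φ : ℂ)) 1 φ := Complex.ofRealCLM.hasDerivAt
  have h2 := ((h1.sub_const (φ₀ : ℂ)).const_mul (κ : ℂ)).add (h1.const_mul Complex.I)
  rw [mul_one, mul_one] at h2
  exact h2

theorem hasDerivAt_Gm (κ φ₀ q φ : ℝ) :
    HasDerivAt (Gm κ φ₀ q) (((κ : ℂ) + Complex.I) * Gm κ φ₀ q φ) φ := by
  have h := ((hasDerivAt_ww κ φ₀ φ).cexp).const_mul (q : ℂ)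
  have e : (q : ℂ) * (Complex.exp (ww κ φ₀ φ) * ((κ : ℂ) + Complex.I)) =
      ((κ : ℂ) + Complex.I) * Gm κ φ₀ q φ := by
    rw [Gm_eq]; ring
  rw [e] at h
  exact h

/-- the function without the factor `q ^ m` -/
noncomputable def FF (κ φ₀ : ℝ) (m : ℕ) (g : ℂ → ℂ) (z : ℝ × ℝ) : ℝ :=
  (Complex.exp (m * ww κ φ₀ z.2) * g (z.1 * Complex.exp (ww κ φ₀ z.2))).re

theorem analyticAt_FF {κ φ₀ : ℝ} {m : ℕ} {g : ℂ → ℂ} (hg : AnalyticAt ℂ g 0) (φ : ℝ) :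
    AnalyticAt ℝ (FF κ φ₀ m g) (0, φ) := by
  have h1 : AnalyticAt ℝ (fun z : ℝ × ℝ => (z.1 : ℂ)) (0, φ) :=
    (Complex.ofRealCLM.analyticAt _).comp analyticAt_fst
  have h2 : AnalyticAt ℝ (fun z : ℝ × ℝ => (z.2 : ℂ)) (0, φ) :=
    (Complex.ofRealCLM.analyticAt _).comp analyticAt_snd
  have h3 : AnalyticAt ℝ (fun z : ℝ × ℝ => ww κ φ₀ z.2) (0, φ) :=
    (analyticAt_const.mul (h2.sub analyticAt_const)).add (analyticAt_const.mul h2)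
  have hexp : ∀ w : ℂ, AnalyticAt ℝ Complex.exp w := fun w =>
    (analyticAt_cexp (z := w)).restrictScalars
  have h4 : AnalyticAt ℝ (fun z : ℝ × ℝ => Complex.exp (ww κ φ₀ z.2)) (0, φ) :=
    (hexp _).comp h3
  have h5 : AnalyticAt ℝ (fun z : ℝ × ℝ => Complex.exp (m * ww κ φ₀ z.2)) (0, φ) :=
    (hexp _).comp (analyticAt_const.mul h3)
  have h6 : AnalyticAt ℝ (fun z : ℝ × ℝ => (z.1 : ℂ) * Complex.exp (ww κ φ₀ z.2)) (0, φ) :=
    h1.mul h4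
  have h7 : AnalyticAt ℝ (fun z : ℝ × ℝ => g ((z.1 : ℂ) * Complex.exp (ww κ φ₀ z.2))) (0, φ) := by
    have hg' : AnalyticAt ℝ g 0 := hg.restrictScalars
    exact hg'.comp_of_eq h6 (by simp)
  exact (Complex.reCLM.analyticAt _).comp (h5.mul h7)

theorem kI_ne (κ : ℝ) : (κ : ℂ) + Complex.I ≠ 0 := by
  intro h
  have := congrArg Complex.im h
  simp at this

theorem kI_re (κ : ℝ) (z : ℂ) : (((κ : ℂ) + Complex.I) * z).re = κ * z.re - z.im := by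
  simp

theorem zero_pos (R κ φ₀ δ δ' ε : ℝ) (G : ℂ → ℂ) (hR : 0 < R) (hδ' : 0 < δ') (hδ : δ' < δ)
    (hε : 0 < ε) (hG : DifferentiableOn ℂ G (ball 0 R)) (hG0 : G 0 = 0)
    (hmem : ∀ q ∈ Ioo 0 ε, ∀ φ ∈ Icc (φ₀ - δ) (φ₀ + δ), Gm κ φ₀ q φ ∈ ball (0 : ℂ) R \ {0})
    (hpos : ∀ q ∈ Ioo 0 ε, ∀ φ ∈ Icc (φ₀ - δ) (φ₀ + δ),
        0 < (deriv G (Gm κ φ₀ q φ) * ((κ + Complex.I) * Gm κ φ₀ q φ)).re) :
    ∃ ε' > 0, ε' ≤ ε ∧
      ((∀ q ∈ Ioo 0 ε', ∀ φ ∈ Icc (φ₀ - δ') (φ₀ + δ'), (G (Gm κ φ₀ q φ)).re ≠ 0) ∨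
        ∃ Φ : ℝ → ℝ, AnalyticAt ℝ Φ 0 ∧ |Φ 0 - φ₀| < δ ∧ ∀ q ∈ Ioo 0 ε', |Φ q - φ₀| < δ ∧
          (G (Gm κ φ₀ q (Φ q))).re = 0 ∧
          ∀ φ ∈ Icc (φ₀ - δ') (φ₀ + δ'), (G (Gm κ φ₀ q φ)).re = 0 → φ = Φ q) := by
  have hcont : Continuous (fun z : ℝ × ℝ => Gm κ φ₀ z.1 z.2) := by
    unfold Gm
    fun_prop
  have htend : ∀ φ : ℝ, Tendsto (fun z : ℝ × ℝ => Gm κ φ₀ z.1 z.2) (𝓝 (0, φ)) (𝓝 0) := by
    intro φ
    have h := hcont.tendsto ((0 : ℝ), φ)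
    have e : Gm κ φ₀ ((0 : ℝ), φ).1 ((0 : ℝ), φ).2 = 0 := by
      show Gm κ φ₀ 0 φ = 0
      rw [Gm_eq]; simp
    rw [e] at h
    exact h
  have hA : AnalyticAt ℂ G 0 := hG.analyticAt (ball_mem_nhds 0 hR)
  have hne : ¬ ∀ᶠ z in 𝓝 (0 : ℂ), G z = 0 := by
    intro h
    have h2 : ∀ᶠ z in 𝓝 (0 : ℂ), deriv G z = 0 := by
      filter_upwards [h.eventually_nhds] with z hz
      have : G =ᶠ[𝓝 z] fun _ => 0 := hz
      rw [this.deriv_eq, deriv_const]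
    have h3 : Tendsto (fun q : ℝ => Gm κ φ₀ q φ₀) (𝓝[>] 0) (𝓝 0) := by
      have : Tendsto (fun q : ℝ => ((q, φ₀) : ℝ × ℝ)) (𝓝 0) (𝓝 (0, φ₀)) :=
        (Continuous.prodMk continuous_id continuous_const).tendsto 0
      exact ((htend φ₀).comp this).mono_left nhdsWithin_le_nhds
    have h4 : ∀ᶠ q in 𝓝[>] (0 : ℝ), q ∈ Ioo 0 ε := Ioo_mem_nhdsGT hε
    obtain ⟨q, hq1, hq2⟩ := ((h3.eventually h2).and h4).exists
    have := hpos q hq2 φ₀ ⟨by linarith, by linarith⟩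
    rw [hq1, zero_mul, Complex.zero_re] at this
    exact lt_irrefl _ this
  obtain ⟨m, g, hg, hg0, hGg⟩ := (hA.exists_eventuallyEq_pow_smul_nonzero_iff).2 hne
  have hm : m ≠ 0 := by
    rintro rfl
    have := hGg.self_of_nhds
    rw [hG0, pow_zero, one_smul] at this
    exact hg0 this.symm
  have hev : ∀ᶠ q in 𝓝 (0 : ℝ), ∀ φ ∈ Icc (φ₀ - δ) (φ₀ + δ),
      (G (Gm κ φ₀ q φ)).re = q ^ m * FF κ φ₀ m g (q, φ) := by
    apply isCompact_Icc.eventually_forall_of_forall_eventually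
    intro φ _
    filter_upwards [(htend φ).eventually hGg] with z hz
    rw [hz, sub_zero, smul_eq_mul, FF, Gm_eq, Complex.exp_nat_mul, mul_pow, mul_assoc,
      ← Complex.ofReal_pow, Complex.re_ofReal_mul]
  -- strict monotonicity
  have hsm : ∀ q ∈ Ioo 0 ε, StrictMonoOn (fun φ => (G (Gm κ φ₀ q φ)).re)
      (Icc (φ₀ - δ) (φ₀ + δ)) := by
    intro q hq
    have hd : ∀ φ ∈ Icc (φ₀ - δ) (φ₀ + δ), HasDerivAt (fun φ => (G (Gm κ φ₀ q φ)).re)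
        ((deriv G (Gm κ φ₀ q φ) * ((κ + Complex.I) * Gm κ φ₀ q φ)).re) φ := by
      intro φ hφ
      have h1 : HasDerivAt G (deriv G (Gm κ φ₀ q φ)) (Gm κ φ₀ q φ) :=
        (hG.differentiableAt (isOpen_ball.mem_nhds (hmem q hq φ hφ).1)).hasDerivAt
      have h2 := h1.scomp φ (hasDerivAt_Gm κ φ₀ q φ)
      rw [smul_eq_mul, mul_comm] at h2
      exact Complex.reCLM.hasFDerivAt.comp_hasDerivAt φ h2
    apply strictMonoOn_of_deriv_pos (convex_Icc _ _)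
    · intro φ hφ
      exact (hd φ hφ).continuousAt.continuousWithinAt
    · intro φ hφ
      rw [interior_Icc] at hφ
      rw [(hd φ (Ioo_subset_Icc_self hφ)).deriv]
      exact hpos q hq φ (Ioo_subset_Icc_self hφ)
  obtain ⟨ε₁, hε₁, hε₁'⟩ := Metric.eventually_nhds_iff.1 hev
  have hev1 : ∀ q ∈ Ioo 0 (min ε ε₁), ∀ φ ∈ Icc (φ₀ - δ) (φ₀ + δ),
      (G (Gm κ φ₀ q φ)).re = q ^ m * FF κ φ₀ m g (q, φ) := by
    intro q hq
    apply hε₁'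
    rw [Real.dist_eq, sub_zero, abs_of_pos hq.1]
    exact lt_of_lt_of_le hq.2 (min_le_right _ _)
  have hsF : ∀ q ∈ Ioo 0 (min ε ε₁), StrictMonoOn (fun φ => FF κ φ₀ m g (q, φ))
      (Icc (φ₀ - δ) (φ₀ + δ)) := by
    intro q hq x hx y hy hxy
    have h1 := hsm q ⟨hq.1, lt_of_lt_of_le hq.2 (min_le_left _ _)⟩ hx hy hxy
    simp only [hev1 q hq x hx, hev1 q hq y hy] at h1
    exact lt_of_mul_lt_mul_left h1 (pow_pos hq.1 m).le
  have hmin : 0 < min ε ε₁ := lt_min hε hε₁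
  -- continuity of `FF`
  have hFc : ∀ φ : ℝ, ContinuousAt (FF κ φ₀ m g) (0, φ) := fun φ => (analyticAt_FF hg φ).continuousAt
  have hFt : ∀ φ : ℝ, Tendsto (fun q : ℝ => FF κ φ₀ m g (q, φ)) (𝓝[>] 0)
      (𝓝 (FF κ φ₀ m g (0, φ))) := by
    intro φ
    have : Tendsto (fun q : ℝ => ((q, φ) : ℝ × ℝ)) (𝓝 0) (𝓝 (0, φ)) :=
      (Continuous.prodMk continuous_id continuous_const).tendsto 0
    exact (Tendsto.comp (hFc φ) this).mono_left nhdsWithin_le_nhds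
  have hmono0 : MonotoneOn (fun φ => FF κ φ₀ m g (0, φ)) (Icc (φ₀ - δ) (φ₀ + δ)) := by
    intro x hx y hy hxy
    rcases hxy.eq_or_lt with rfl | hlt
    · exact le_rfl
    · refine le_of_tendsto_of_tendsto (hFt x) (hFt y) ?_
      filter_upwards [Ioo_mem_nhdsGT hmin] with q hq
      exact (hsF q hq hx hy hlt).le
  -- derivative of `FF (0, ·)`
  have hF0 : ∀ φ : ℝ, FF κ φ₀ m g (0, φ) = (Complex.exp (m * ww κ φ₀ φ) * g 0).re := by
    intro φ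
    simp [FF]
  have hcd : ∀ (c : ℂ) (φ : ℝ), HasDerivAt (fun φ => (c * (Complex.exp (m * ww κ φ₀ φ) * g 0)).re)
      ((c * ((m * ((κ : ℂ) + Complex.I)) * (Complex.exp (m * ww κ φ₀ φ) * g 0))).re) φ := by
    intro c φ
    have h1 := (((hasDerivAt_ww κ φ₀ φ).const_mul (m : ℂ)).cexp.mul_const (g 0)).const_mul c
    have h2 := Complex.reCLM.hasFDerivAt.comp_hasDerivAt φ h1
    have e : c * (Complex.exp (m * ww κ φ₀ φ) * (m * ((κ : ℂ) + Complex.I)) * g 0) =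
        c * ((m * ((κ : ℂ) + Complex.I)) * (Complex.exp (m * ww κ φ₀ φ) * g 0)) := by ring
    rw [← e]
    exact h2
  set P : ℝ → ℝ := fun φ =>
    ((m * ((κ : ℂ) + Complex.I)) * (Complex.exp (m * ww κ φ₀ φ) * g 0)).re with hP
  have hFd : ∀ φ : ℝ, HasDerivAt (fun φ => FF κ φ₀ m g (0, φ)) (P φ) φ := by
    intro φ
    have h1 := hcd 1 φ
    simp only [one_mul] at h1
    have e : (fun φ => FF κ φ₀ m g (0, φ)) = fun φ => (Complex.exp (m * ww κ φ₀ φ) * g 0).re :=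
      funext hF0
    rw [e]
    exact h1
  have hP0 : ∀ φ ∈ Ioo (φ₀ - δ) (φ₀ + δ), 0 ≤ P φ := by
    intro φ hφ
    have h1 : 0 ≤ derivWithin (fun φ => FF κ φ₀ m g (0, φ)) (Icc (φ₀ - δ) (φ₀ + δ)) φ :=
      hmono0.derivWithin_nonneg
    rw [derivWithin_of_mem_nhds (Icc_mem_nhds hφ.1 hφ.2), (hFd φ).deriv] at h1
    exact h1
  have hP1 : ∀ φ ∈ Ioo (φ₀ - δ) (φ₀ + δ), 0 < P φ := by
    intro φ hφ
    rcases (hP0 φ hφ).lt_or_eq with h | h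
    · exact h
    exfalso
    have hloc : IsLocalMin P φ := by
      filter_upwards [Ioo_mem_nhds hφ.1 hφ.2] with y hy
      rw [← h]; exact hP0 y hy
    have hd := hloc.hasDerivAt_eq_zero (hcd (m * ((κ : ℂ) + Complex.I)) φ)
    set z : ℂ := (m * ((κ : ℂ) + Complex.I)) * (Complex.exp (m * ww κ φ₀ φ) * g 0) with hz
    have hz0 : z ≠ 0 := by
      rw [hz]
      have hm' : (m : ℂ) ≠ 0 := by exact_mod_cast hm
      exact mul_ne_zero (mul_ne_zero hm' (kI_ne κ)) (mul_ne_zero (Complex.exp_ne_zero _) hg0)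
    have hre : z.re = 0 := h.symm
    have h2 : (m : ℝ) * (κ * z.re - z.im) = 0 := by
      rw [← hd]
      have : ((m : ℂ) * ((κ : ℂ) + Complex.I)) * z = ((m : ℝ) : ℂ) * (((κ : ℂ) + Complex.I) * z) := by
        push_cast; ring
      rw [this, Complex.re_ofReal_mul, kI_re]
    rw [hre, mul_zero, zero_sub] at h2
    have hm'' : (m : ℝ) ≠ 0 := by exact_mod_cast hm
    have him : z.im = 0 := by
      rcases mul_eq_zero.1 h2 with h3 | h3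
      · exact absurd h3 hm''
      · linarith
    exact hz0 (Complex.ext hre him)
  have hsub : Icc (φ₀ - δ') (φ₀ + δ') ⊆ Ioo (φ₀ - δ) (φ₀ + δ) := by
    intro x hx
    exact ⟨by linarith [hx.1], by linarith [hx.2]⟩
  by_cases hz : ∃ φ ∈ Ioo (φ₀ - δ) (φ₀ + δ), FF κ φ₀ m g (0, φ) = 0
  · obtain ⟨φs, hφs, hFs⟩ := hz
    have hcdf : ContDiffAt ℝ ω (FF κ φ₀ m g) ((0 : ℝ), φs) := (analyticAt_FF hg φs).contDiffAt
    have hfd : HasFDerivAt (FF κ φ₀ m g) (fderiv ℝ (FF κ φ₀ m g) ((0 : ℝ), φs)) ((0 : ℝ), φs) :=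
      (analyticAt_FF hg φs).differentiableAt.hasFDerivAt
    have hpar : (fderiv ℝ (FF κ φ₀ m g) ((0 : ℝ), φs)) (0, 1) = P φs := by
      have h1 : HasDerivAt (fun t : ℝ => (((0 : ℝ), t) : ℝ × ℝ)) (0, 1) φs :=
        (hasDerivAt_const φs (0 : ℝ)).prodMk (hasDerivAt_id φs)
      have h2 := hfd.comp_hasDerivAt φs h1
      exact h2.unique (hFd φs)
    have hinv : (fderiv ℝ (FF κ φ₀ m g) ((0 : ℝ), φs) ∘L .inr ℝ ℝ ℝ).IsInvertible := by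
      refine ⟨ContinuousLinearEquiv.unitsEquivAut ℝ (Units.mk0 (P φs) (hP1 φs hφs).ne'), ?_⟩
      ext
      simp [hpar]
    have hne0 : (ω : ℕ∞ω) ≠ 0 := by simp
    set Φ := hcdf.implicitFunction hne0 hinv with hΦ
    have hΦ0 : Φ 0 = φs := hcdf.implicitFunction_apply_self hne0 hinv
    have hΦa : AnalyticAt ℝ Φ 0 := (hcdf.contDiffAt_implicitFunction hne0 hinv).analyticAt
    have hΦe : ∀ᶠ q in 𝓝 (0 : ℝ), FF κ φ₀ m g (q, Φ q) = 0 := by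
      have := hcdf.eventually_apply_implicitFunction hne0 hinv
      rw [hFs] at this
      exact this
    have hΦn : ∀ᶠ q in 𝓝 (0 : ℝ), Φ q ∈ Ioo (φ₀ - δ) (φ₀ + δ) := by
      have h1 := hΦa.continuousAt
      have h2 : Ioo (φ₀ - δ) (φ₀ + δ) ∈ 𝓝 (Φ 0) := by rw [hΦ0]; exact Ioo_mem_nhds hφs.1 hφs.2
      exact h1 h2
    obtain ⟨ε₂, hε₂, hε₂'⟩ := Metric.eventually_nhds_iff.1 (hΦe.and hΦn)
    refine ⟨min (min ε ε₁) ε₂, lt_min hmin hε₂, (min_le_left _ _).trans (min_le_left _ _),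
      Or.inr ⟨Φ, hΦa, ?_, ?_⟩⟩
    · rw [hΦ0, abs_lt]
      exact ⟨by linarith [hφs.1], by linarith [hφs.2]⟩
    · intro q hq
      have hq1 : q ∈ Ioo 0 (min ε ε₁) := ⟨hq.1, lt_of_lt_of_le hq.2 (min_le_left _ _)⟩
      obtain ⟨h1, h2⟩ := hε₂' (y := q) (by
        rw [Real.dist_eq, sub_zero, abs_of_pos hq.1]
        exact lt_of_lt_of_le hq.2 (min_le_right _ _))
      refine ⟨by rw [abs_lt]; exact ⟨by linarith [h2.1], by linarith [h2.2]⟩, ?_, ?_⟩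
      · rw [hev1 q hq1 (Φ q) (Ioo_subset_Icc_self h2), h1, mul_zero]
      · intro φ hφ h3
        have hφ' : φ ∈ Icc (φ₀ - δ) (φ₀ + δ) := Ioo_subset_Icc_self (hsub hφ)
        rw [hev1 q hq1 φ hφ'] at h3
        have h4 : FF κ φ₀ m g (q, φ) = 0 := by
          rcases mul_eq_zero.1 h3 with h5 | h5
          · exact absurd h5 (pow_pos hq.1 m).ne'
          · exact h5
        exact (hsF q hq1).injOn hφ' (Ioo_subset_Icc_self h2) (h4.trans h1.symm)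
  · have h1 : ∀ᶠ q in 𝓝 (0 : ℝ), ∀ φ ∈ Icc (φ₀ - δ') (φ₀ + δ'), FF κ φ₀ m g (q, φ) ≠ 0 := by
      apply isCompact_Icc.eventually_forall_of_forall_eventually
      intro φ hφ
      have h2 : FF κ φ₀ m g (0, φ) ≠ 0 := fun h => hz ⟨φ, hsub hφ, h⟩
      exact (hFc φ).eventually_ne h2
    obtain ⟨ε₂, hε₂, hε₂'⟩ := Metric.eventually_nhds_iff.1 h1
    refine ⟨min (min ε ε₁) ε₂, lt_min hmin hε₂, (min_le_left _ _).trans (min_le_left _ _),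
      Or.inl ?_⟩
    intro q hq φ hφ
    have hq1 : q ∈ Ioo 0 (min ε ε₁) := ⟨hq.1, lt_of_lt_of_le hq.2 (min_le_left _ _)⟩
    rw [hev1 q hq1 φ (Ioo_subset_Icc_self (hsub hφ))]
    refine mul_ne_zero (pow_pos hq.1 m).ne' (hε₂' (y := q) ?_ φ hφ)
    rw [Real.dist_eq, sub_zero, abs_of_pos hq.1]
    exact lt_of_lt_of_le hq.2 (min_le_right _ _)

theorem main : S_ZERO := by
  intro R κ φ₀ δ δ' ε G hR hδ' hδ hε hG hG0 hmem hs
  rcases hs with hs | hs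
  · exact zero_pos R κ φ₀ δ δ' ε G hR hδ' hδ hε hG hG0 hmem hs
  · have hG' : DifferentiableOn ℂ (fun z => -G z) (ball 0 R) := hG.neg
    obtain ⟨ε', h0, hle, h⟩ := zero_pos R κ φ₀ δ δ' ε (fun z => -G z) hR hδ' hδ hε hG'
      (by simp [hG0]) hmem (by
        intro q hq φ hφ
        have h1 := hs q hq φ hφ
        have h2 : deriv (fun z => -G z) (Gm κ φ₀ q φ) = -deriv G (Gm κ φ₀ q φ) := deriv.fun_neg
        rw [h2, neg_mul, Complex.neg_re]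
        linarith)
    refine ⟨ε', h0, hle, ?_⟩
    simp only [Complex.neg_re, neg_eq_zero, ne_eq] at h
    exact h

end Pool.Agent.W377.CQ
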